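import Pool.Agent.Q99.RM.Main

/-!
# The measures of Mackey noncompactness are not equivalent under the reciprocal Dunford-Pettis property
-/

set_option autoImplicit false

namespace Pool.Agent.Results.MP_997199_an.NotEquivalent

open Q99.RM
open scoped ENNReal

/-- For real and for complex scalars there are a Banach space `X` with the reciprocal Dunford-Pettis property and
nonempty bounded subsets `A n` of its dual space with `n * χ_m (A n) < ω_m (A n)` for all `n`. -/
theorem result (𝕜 : Type) [RCLike 𝕜] :
    ∃ (X : Type) (_ : NormedAddCommGroup X) (_ : NormedSpace 𝕜 X), CompleteSpace X ∧ RDPP 𝕜 X ∧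
      ∃ A : ℕ → Set (StrongDual 𝕜 X), (∀ n, (A n).Nonempty ∧ Bornology.IsBounded (A n)) ∧
        ∀ n : ℕ, (n : ℝ≥0∞) * chim (A n) < omegam (A n) :=
  ⟨Q99.RD.XX 𝕜, inferInstance, inferInstance, inferInstance, rdpp, fun n => AA 𝕜 (53 * n),
    fun _ => ⟨AA_nonempty _, AA_bounded _⟩, main⟩

end Pool.Agent.Results.MP_997199_an.NotEquivalent
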